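import Pool.Agent.helper65.GD.SpecD

/-! # MP_ea335c, row GLK -/

set_option autoImplicit false

namespace Pool.Agent.GD

open Finset Metric Filter Topology

theorem GLK_app (μ : ℕ → ℂ) (hA : Approx μ) : ∃ (N : ℕ → ℕ) (w : (t : ℕ) → Fin (N t) → ℝ)
    (x : (t : ℕ) → Fin (N t) → ℂ), (∀ t, Atomic (N t) (w t) (x t)) ∧
    ∀ m, Tendsto (fun t => mom (w t) (x t) m) atTop (𝓝 (μ m)) := by
  have hex : ∀ t : ℕ, ∃ (N : ℕ) (w : Fin N → ℝ) (x : Fin N → ℂ), Atomic N w x ∧
      ∀ m ≤ t, ‖mom w x m - μ m‖ < 1 / ((t : ℝ) + 1) := fun t => hA t _ (by positivity)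
  choose N w x hat hmom using hex
  refine ⟨N, w, x, hat, ?_⟩
  intro m
  rw [tendsto_iff_norm_sub_tendsto_zero]
  refine squeeze_zero' (Eventually.of_forall fun t => norm_nonneg _) ?_
    (tendsto_one_div_add_atTop_nhds_zero_nat (𝕜 := ℝ))
  filter_upwards [eventually_ge_atTop m] with t ht
  exact (hmom t m ht).le

theorem GLK (hGAK : GAK_stmt) (hEXR : EXR_stmt) (hCTN : CTN_stmt) : GLK_stmt := by
  intro p k μ κ τ b B G hp hk hA hA' hb hpos hG hf
  obtain ⟨N, w, x, hat, hν⟩ := GLK_app μ hA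
  obtain ⟨N', v, y, hat', hν'⟩ := GLK_app κ hA'
  choose K hK using fun t => hEXR (2 * p) (mom (w t) (x t))
  have hK' := hCTN (2 * p) μ G (fun t => mom (w t) (x t)) K hν hG hK
  have hE : ∀ q, Tendsto (fun t => EE τ (mom (v t) (y t)) b q) atTop (𝓝 (EE τ κ b q)) := by
    intro q
    unfold EE
    refine Tendsto.add tendsto_const_nhds ?_
    refine Tendsto.const_mul _ ?_
    apply tendsto_finsetSum
    intro r _
    exact (hν' _).mul_const _
  have hF : ∀ n, Tendsto (fun t => ∑ q ∈ range (n + 1),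
      EE τ (mom (v t) (y t)) b q * K t (n - q)) atTop (𝓝 (B n)) := by
    intro n
    rw [hf n]
    apply tendsto_finsetSum
    intro m _
    exact (hE _).mul (hK' _)
  have h1 := (hF (p + k)).norm
  have h2 : Tendsto (fun t => ∑ j ∈ Icc 1 p, ((p : ℝ) + k) / j * (AA p (p + k) j *
      ‖∑ q ∈ range (j + 1), EE τ (mom (v t) (y t)) b q * K t (j - q)‖)) atTop
      (𝓝 (∑ j ∈ Icc 1 p, ((p : ℝ) + k) / j * (AA p (p + k) j * ‖B j‖))) := by
    apply tendsto_finsetSum
    intro j _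
    exact (((hF j).norm).const_mul _).const_mul _
  refine le_of_tendsto_of_tendsto' h1 h2 fun t => ?_
  exact hGAK p k (N t) (N' t) (w t) (x t) (v t) (y t) τ b
    (fun n => ∑ q ∈ range (n + 1), EE τ (mom (v t) (y t)) b q * K t (n - q)) (K t)
    hp hk (hat t) (hat' t) hb hpos (hK t) (fun _ => rfl)

end Pool.Agent.GD
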