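import Pool.Agent.helper97.GD.Spec

/-!
# Row gd:GTM (MP_37e5fa_nt): the terms of the language map small functions to functions of some level
-/

set_option autoImplicit false

open Filter FirstOrder FirstOrder.Language

namespace Pool.Agent.GD

open Pool.Agent.UnivT

theorem GTM_mono (hGLV : GLV_stmt) (U : Ultrafilter ℕ) (N : ℕ → ℕ) (hN : Tendsto N (U : Filter ℕ) atTop)
    (f : ℕ → ℤ) (k m : ℕ) (h : k ≤ m) (hf : Lv U N k f) : Lv U N m f := by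
  induction h with
  | refl => exact hf
  | step _ ih => exact (hGLV U N hN _).2.2.1 _ ih

theorem GTM_common (hGLV : GLV_stmt) (U : Ultrafilter ℕ) (N : ℕ → ℕ) (hN : Tendsto N (U : Filter ℕ) atTop)
    (f g : ℕ → ℤ) (hf : ∃ j, Lv U N (j + 1) f) (hg : ∃ j, Lv U N (j + 1) g) :
    ∃ j, Lv U N (j + 1) f ∧ Lv U N (j + 1) g := by
  obtain ⟨k, hk⟩ := hf
  obtain ⟨m, hm⟩ := hg
  exact ⟨max k m, GTM_mono hGLV U N hN f (k + 1) _ (Nat.add_le_add_right (le_max_left _ _) 1) hk,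
    GTM_mono hGLV U N hN g (m + 1) _ (Nat.add_le_add_right (le_max_right _ _) 1) hm⟩

theorem GTM_const (hGSM : GSM_stmt) (hGLV : GLV_stmt) (U : Ultrafilter ℕ) (N : ℕ → ℕ)
    (hN : Tendsto N (U : Filter ℕ) atTop) (n : ℕ) (c : ℤ) : Lv U N n fun _ => c :=
  (hGLV U N hN n).2.1 _ ((hGSM U N hN).1 c)

/-- functions with a representation `St` are of level `n + 1` -/
theorem GTM_st (hGSM : GSM_stmt) (hGLV : GLV_stmt) (U : Ultrafilter ℕ) (N : ℕ → ℕ)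
    (hN : Tendsto N (U : Filter ℕ) atTop) (n D : ℕ) (c : ℕ → ℤ) (l : List ((ℕ → ℤ) × (ℕ → ℤ)))
    (f : ℕ → ℤ) (h : St U N n D c l f) : Lv U N (n + 1) f := by
  obtain ⟨hD, hc, hl, he⟩ := h
  refine ⟨D, (c, fun _ => 0) :: l, hD, ?_, ?_⟩
  · intro x hx
    rcases List.mem_cons.1 hx with h1 | h1
    · rw [h1]
      exact ⟨hc, GTM_const hGSM hGLV U N hN n 0⟩
    · exact hl x h1
  · filter_upwards [he] with k hk
    rw [hk, sv_cons]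
    simp

theorem GTM_ts (hGSM : GSM_stmt) (U : Ultrafilter ℕ) (N : ℕ → ℕ)
    (hN : Tendsto N (U : Filter ℕ) atTop) (n : ℕ) (f : ℕ → ℤ) (h : Lv U N (n + 1) f) :
    ∃ (D : ℕ) (l : List ((ℕ → ℤ) × (ℕ → ℤ))), St U N n D (fun _ => 0) l f := by
  obtain ⟨D, l, hD, hl, he⟩ := h
  refine ⟨D, l, hD, (hGSM U N hN).1 0, hl, ?_⟩
  filter_upwards [he] with k hk
  rw [hk, zero_add]

theorem GTM_shift (hGSM : GSM_stmt) (hGLV : GLV_stmt) (hGSH : GSH_stmt) (U : Ultrafilter ℕ) (N : ℕ → ℕ)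
    (hN : Tendsto N (U : Filter ℕ) atTop) (f E : ℕ → ℤ) (hf : ∃ j, Lv U N (j + 1) f)
    (hE : ∃ j, Lv U N (j + 1) E) : ∃ j, Lv U N (j + 1) fun k => f k / 2 ^ (E k).toNat := by
  obtain ⟨j, h1, h2⟩ := GTM_common hGLV U N hN f E hf hE
  rcases U.em (fun k => 0 ≤ E k) with h0 | h0
  · obtain ⟨D, l, hs⟩ := GTM_ts hGSM U N hN (j + 1) f ((hGLV U N hN (j + 1)).2.2.1 f h1)
    obtain ⟨c', l', hs', -⟩ := hGSH U N hN (j + 1) D _ l f E hs h2 h0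
    exact ⟨j + 1, GTM_st hGSM hGLV U N hN (j + 1) D c' l' _ hs'⟩
  · refine ⟨j, (hGLV U N hN (j + 1)).1 f _ h1 ?_⟩
    filter_upwards [h0] with k hk
    have h3 : (E k).toNat = 0 := by omega
    rw [h3, pow_zero, Int.ediv_one]

theorem GTM_fn (hGSM : GSM_stmt) (hGLV : GLV_stmt) (hGSH : GSH_stmt) (hGLE : GLE_stmt) (hGBT : GBT_stmt)
    (hGPO : GPO_stmt) (U : Ultrafilter ℕ) (N : ℕ → ℕ) (hN : Tendsto N (U : Filter ℕ) atTop) {n : ℕ}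
    (F : Fn n) (g : Fin n → ℕ → ℤ) (hg : ∀ i, ∃ j, Lv U N (j + 1) (g i)) :
    ∃ j, Lv U N (j + 1) fun k => fnInt F fun i => g i k := by
  cases F with
  | zero => exact ⟨0, GTM_const hGSM hGLV U N hN 1 0⟩
  | one => exact ⟨0, GTM_const hGSM hGLV U N hN 1 1⟩
  | neg =>
    obtain ⟨j, hj⟩ := hg 0
    refine ⟨j, (hGLV U N hN (j + 1)).1 _ _ (((hGLV U N hN (j + 1)).2.2.2.1 _ _
      (GTM_const hGSM hGLV U N hN (j + 1) 0) hj).2.1) (Eventually.of_forall fun k => ?_)⟩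
    simp [fnInt]
  | pow2 =>
    obtain ⟨j, hj⟩ := hg 0
    exact ⟨j + 1, (hGLV U N hN (j + 1)).2.2.2.2.2.2 (g 0) hj⟩
  | length =>
    obtain ⟨j, hj⟩ := hg 0
    exact ⟨j, hGLE U N hN (j + 1) (g 0) ((hGLV U N hN (j + 1)).2.2.1 _ hj)⟩
  | digitSum =>
    obtain ⟨j, hj⟩ := hg 0
    exact ⟨j, hGPO U N hN j (g 0) hj⟩
  | quot c =>
    obtain ⟨j, hj⟩ := hg 0
    exact ⟨j, (hGLV U N hN (j + 1)).2.2.2.2.2.1 c (g 0) hj⟩
  | add =>
    obtain ⟨j, h1, h2⟩ := GTM_common hGLV U N hN _ _ (hg 0) (hg 1)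
    exact ⟨j, ((hGLV U N hN (j + 1)).2.2.2.1 _ _ h1 h2).1⟩
  | mul =>
    obtain ⟨j, h1, h2⟩ := GTM_common hGLV U N hN _ _ (hg 0) (hg 1)
    exact ⟨j, ((hGLV U N hN (j + 1)).2.2.2.1 _ _ h1 h2).2.2⟩
  | shift => exact GTM_shift hGSM hGLV hGSH U N hN _ _ (hg 0) (hg 1)
  | bitwise β =>
    obtain ⟨j, h1, h2⟩ := GTM_common hGLV U N hN _ _ (hg 0) (hg 1)
    exact ⟨j, hGBT U N hN j β _ _ h1 h2⟩
  | ite =>
    rcases U.em (fun k => 0 ≤ g 0 k) with h0 | h0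
    · obtain ⟨j, hj⟩ := hg 1
      refine ⟨j, (hGLV U N hN (j + 1)).1 _ _ hj ?_⟩
      filter_upwards [h0] with k hk
      exact (if_pos hk).symm
    · obtain ⟨j, hj⟩ := hg 2
      refine ⟨j, (hGLV U N hN (j + 1)).1 _ _ hj ?_⟩
      filter_upwards [h0] with k hk
      exact (if_neg hk).symm

theorem GTM (hGSM : GSM_stmt) (hGLV : GLV_stmt) (hGSH : GSH_stmt) (hGLE : GLE_stmt) (hGBT : GBT_stmt) (hGPO : GPO_stmt) : GTM_stmt := by
  intro U N hN β v hv t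
  induction t with
  | var b => exact ⟨0, (hGLV U N hN 1).2.1 _ (hv b)⟩
  | func F ts ih =>
    exact GTM_fn hGSM hGLV hGSH hGLE hGBT hGPO U N hN F (fun i k => (ts i).realize fun b => v b k) ih

end Pool.Agent.GD
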